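import Pool.Agent.Helper47.FLG.Pde

/-!
# MP_c98eff_gt, packet FLG-PF2: alternating sums which vanish
-/

namespace Pool.Agent.Helper55.FLG

open Finset Pool.Agent.Helper47.RFn Pool.Agent.Helper47.FLG

theorem sum_mul_right {N : ℕ} {B : Type} [CommRing B] (X : (Fin N → Fin N) → B) (c : Equiv.Perm (Fin N)) :
    ∑ s : Equiv.Perm (Fin N), (Equiv.Perm.sign s : ℤ) • X (fun l => s (c l)) =
      (Equiv.Perm.sign c : ℤ) • ∑ s : Equiv.Perm (Fin N), (Equiv.Perm.sign s : ℤ) • X s := by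
  have h := Equiv.sum_comp (Equiv.mulRight c)
    (fun s : Equiv.Perm (Fin N) => (Equiv.Perm.sign s : ℤ) • X s)
  rw [← h, Finset.smul_sum]
  refine Finset.sum_congr rfl fun s _ => ?_
  have e1 : (Equiv.mulRight c) s = s * c := rfl
  have e2 : ((s * c : Equiv.Perm (Fin N)) : Fin N → Fin N) = fun l => s (c l) := rfl
  rw [e1, e2, Equiv.Perm.sign_mul, Units.val_mul, smul_smul]
  have e3 : ((Equiv.Perm.sign c : ℤˣ) : ℤ) * (((Equiv.Perm.sign s : ℤˣ) : ℤ) * ((Equiv.Perm.sign c : ℤˣ) : ℤ))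
      = ((Equiv.Perm.sign s : ℤˣ) : ℤ) := by
    have e4 : ((Equiv.Perm.sign c : ℤˣ) : ℤ) * ((Equiv.Perm.sign c : ℤˣ) : ℤ) = 1 := by
      rw [← Units.val_mul, Int.units_mul_self, Units.val_one]
    linear_combination ((Equiv.Perm.sign s : ℤˣ) : ℤ) * e4
  rw [e3]

theorem g_PF2 : G_PF2 := by
  intro N B _ _ X
  constructor
  · intro i j k hij hjk hik hX
    have s1 : Equiv.Perm.sign (Equiv.swap i j * Equiv.swap j k) = 1 := by
      rw [Equiv.Perm.sign_mul, Equiv.Perm.sign_swap hij, Equiv.Perm.sign_swap hjk]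
      rfl
    have s2 : Equiv.Perm.sign (Equiv.swap j k * Equiv.swap i j) = 1 := by
      rw [Equiv.Perm.sign_mul, Equiv.Perm.sign_swap hij, Equiv.Perm.sign_swap hjk]
      rfl
    have h1 := sum_mul_right X (Equiv.swap i j * Equiv.swap j k)
    have h2 := sum_mul_right X (Equiv.swap j k * Equiv.swap i j)
    rw [s1, Units.val_one, one_smul] at h1
    rw [s2, Units.val_one, one_smul] at h2
    have h3 : (∑ s : Equiv.Perm (Fin N), (Equiv.Perm.sign s : ℤ) • X s) +
        (∑ s : Equiv.Perm (Fin N), (Equiv.Perm.sign s : ℤ) •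
          X (fun l => s ((Equiv.swap i j * Equiv.swap j k) l))) +
        (∑ s : Equiv.Perm (Fin N), (Equiv.Perm.sign s : ℤ) •
          X (fun l => s ((Equiv.swap j k * Equiv.swap i j) l))) = 0 := by
      rw [← Finset.sum_add_distrib, ← Finset.sum_add_distrib]
      refine Finset.sum_eq_zero fun s _ => ?_
      rw [← smul_add, ← smul_add, hX s, smul_zero]
    rw [h1, h2] at h3
    have h4 : (3 : ℝ) • (∑ s : Equiv.Perm (Fin N), (Equiv.Perm.sign s : ℤ) • X s) = 0 := by
      rw [← h3, show (3 : ℝ) = 1 + 1 + 1 by norm_num, add_smul, add_smul, one_smul]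
    have h5 := congrArg (fun x : B => ((3 : ℝ)⁻¹) • x) h4
    simp only [smul_smul, smul_zero] at h5
    rw [inv_mul_cancel₀ (by norm_num : (3 : ℝ) ≠ 0), one_smul] at h5
    exact h5
  · intro i j hij
    have h := sum_mul_right X (Equiv.swap i j)
    rw [Equiv.Perm.sign_swap hij] at h
    rw [h]
    simp

end Pool.Agent.Helper55.FLG
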